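import Pool.Agent.N684.BK.Stm

/-!
# BK/BEZ (helper861 for helper684): the sharp weighted Bezout inequality by averaging
-/

set_option autoImplicit false

open MvPolynomial Filter
open scoped ENNReal NNReal

namespace Pool.Agent.N861.BK.BEZ

open Pool.Agent.N684.BK

/-- superadditivity of the lower limit -/
theorem add_liminf_le (u v : ℕ → ℝ≥0∞) :
    liminf u atTop + liminf v atTop ≤ liminf (fun K => u K + v K) atTop := by
  rw [liminf_eq_iSup_iInf_of_nat, liminf_eq_iSup_iInf_of_nat, liminf_eq_iSup_iInf_of_nat]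
  have hm : ∀ w : ℕ → ℝ≥0∞, Monotone fun n => ⨅ i, ⨅ (_ : i ≥ n), w i := by
    intro w a b hab
    exact le_iInf₂ fun i hi => iInf₂_le i (hab.trans hi)
  rw [ENNReal.iSup_add_iSup_of_monotone (hm u) (hm v)]
  refine iSup_mono fun n => le_iInf₂ fun i hi => ?_
  exact add_le_add (iInf₂_le i hi) (iInf₂_le i hi)

/-- superadditivity of the lower limit -/
theorem sum_liminf_le {ι : Type*} (s : Finset ι) (u : ι → ℕ → ℝ≥0∞) :
    ∑ Q ∈ s, liminf (u Q) atTop ≤ liminf (fun K => ∑ Q ∈ s, u Q K) atTop := by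
  classical
  induction s using Finset.induction_on with
  | empty => simp
  | insert a s ha ih =>
    rw [Finset.sum_insert ha]
    have h1 : (fun K => ∑ Q ∈ insert a s, u Q K) = fun K => u a K + ∑ Q ∈ s, u Q K := by
      funext K
      rw [Finset.sum_insert ha]
    rw [h1]
    exact (add_le_add le_rfl ih).trans (add_liminf_le _ _)

theorem pow_sub {a b : ℝ} (hb : 0 ≤ b) (hab : b ≤ a) (n : ℕ) :
    a ^ (n + 1) - b ^ (n + 1) ≤ (n + 1) * (a - b) * a ^ n := by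
  induction n with
  | zero => simp
  | succ n ih =>
    have ha : 0 ≤ a := hb.trans hab
    have h1 : a ^ (n + 2) - b ^ (n + 2) = a * (a ^ (n + 1) - b ^ (n + 1)) + b ^ (n + 1) * (a - b) := by ring
    have h2 : a * (a ^ (n + 1) - b ^ (n + 1)) ≤ a * ((n + 1) * (a - b) * a ^ n) :=
      mul_le_mul_of_nonneg_left ih ha
    have h3 : b ^ (n + 1) * (a - b) ≤ a ^ (n + 1) * (a - b) :=
      mul_le_mul_of_nonneg_right (pow_le_pow_left₀ hb hab _) (by linarith)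
    rw [h1]
    push_cast
    calc a * (a ^ (n + 1) - b ^ (n + 1)) + b ^ (n + 1) * (a - b)
        ≤ a * ((n + 1) * (a - b) * a ^ n) + a ^ (n + 1) * (a - b) := add_le_add h2 h3
      _ = ((n : ℝ) + 1 + 1) * (a - b) * a ^ (n + 1) := by ring

/-- telescoping -/
theorem tele {hP hJ : ℕ → ℕ} {M : ℕ} (hM : ∀ K, hJ (K + M) + hP K ≤ hP (K + M)) (K0 T : ℕ)
    (hT : T * M ≤ K0) : ∀ t ≤ T, ∑ j ∈ Finset.range t, hJ (K0 - j * M) + hP (K0 - t * M) ≤ hP K0 := by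
  intro t
  induction t with
  | zero => simp
  | succ t ih =>
    intro ht
    have h2 := ih (by omega)
    have h3 : (t + 1) * M ≤ K0 := (Nat.mul_le_mul_right M ht).trans hT
    have h4 : K0 - t * M = (K0 - (t + 1) * M) + M := by
      rw [add_mul, one_mul] at h3 ⊢
      omega
    rw [Finset.sum_range_succ]
    have h5 := hM (K0 - (t + 1) * M)
    rw [← h4] at h5
    omega

/-- the counting argument -/
theorem core {hP hJ g : ℕ → ℕ} {M w c K1 : ℕ} {D G : ℝ} (hM1 : 1 ≤ M) (hD : 0 ≤ D) (hG : 0 ≤ G)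
    (hM : ∀ K, hJ (K + M) + hP K ≤ hP (K + M)) (hg : ∀ K, g K ≤ hJ (K + c))
    (hf : ∃ᶠ K : ℕ in atTop, (hP K : ℝ) < D * (K : ℝ) ^ (w + 1))
    (hK1 : ∀ K, K1 ≤ K → G * (K : ℝ) ^ w ≤ g K) : G ≤ ((w : ℝ) + 1) * M * D := by
  by_contra hcon
  push Not at hcon
  obtain ⟨B, hB⟩ : ∃ B : ℝ, B = ((w : ℝ) + 1) * M * D := ⟨_, rfl⟩
  rw [← hB] at hcon
  -- enlarge the threshold
  obtain ⟨L, hL1, hL2⟩ : ∃ L : ℕ, K1 ≤ L ∧ M ≤ L := ⟨max K1 M, le_max_left _ _, le_max_right _ _⟩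
  have hgap : 0 < G - B := by linarith
  obtain ⟨N, hN⟩ := exists_nat_gt (G * ((w + 1) * c + (L : ℝ) ^ (w + 1)) / (G - B))
  obtain ⟨K0, hK0, hlt⟩ := (frequently_atTop.1 hf) (N + c + L + 1)
  obtain ⟨A, hA⟩ : ∃ A : ℕ, A = K0 - c - L := ⟨_, rfl⟩
  obtain ⟨T, hT⟩ : ∃ T : ℕ, T = A / M + 1 := ⟨_, rfl⟩
  have hT1 : 1 ≤ T := by rw [hT]; exact Nat.succ_pos _
  have hjM : ∀ j < T, j * M ≤ A := by
    intro j hj
    have h1 : j ≤ A / M := by omega
    exact (Nat.mul_le_mul_right M h1).trans (Nat.div_mul_le_self A M)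
  have hTM1 : A < T * M := by
    rw [hT, mul_comm]
    exact Nat.lt_mul_div_succ A (by omega)
  have hTM2 : T * M ≤ A + M := by
    rw [hT, add_mul, one_mul]
    have := Nat.div_mul_le_self A M
    omega
  have hTK : T * M ≤ K0 := by omega
  have h1 := tele hM K0 T hTK T le_rfl
  -- the sum of the values of `g`
  have h2 : ∑ j ∈ Finset.range T, g (K0 - c - j * M) ≤ hP K0 := by
    refine le_trans ?_ ((Nat.le_add_right _ _).trans h1)
    refine Finset.sum_le_sum fun j hj => ?_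
    have h3 := hjM j (Finset.mem_range.1 hj)
    have h4 := hg (K0 - c - j * M)
    have h5 : K0 - c - j * M + c = K0 - j * M := by omega
    rwa [h5] at h4
  -- real numbers
  obtain ⟨y, hy⟩ : ∃ y : ℕ → ℝ, ∀ j, y j = (K0 : ℝ) - c - j * M := ⟨_, fun _ => rfl⟩
  have hMr : (1 : ℝ) ≤ M := by exact_mod_cast hM1
  have hcL : (c : ℝ) + L ≤ K0 := by exact_mod_cast (by omega : c + L ≤ K0)
  have hAr : (A : ℝ) = K0 - c - L := by
    rw [hA, Nat.cast_sub (by omega), Nat.cast_sub (by omega)]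
  have hyj : ∀ j < T, ((K0 - c - j * M : ℕ) : ℝ) = y j ∧ (L : ℝ) ≤ y j := by
    intro j hj
    have h3 := hjM j hj
    have h3' : (j : ℝ) * M ≤ A := by exact_mod_cast h3
    constructor
    · rw [hy, Nat.cast_sub (by omega), Nat.cast_sub (by omega)]
      push_cast
      ring
    · rw [hy]
      linarith
  have h3 : ∑ j ∈ Finset.range T, G * y j ^ w ≤ D * (K0 : ℝ) ^ (w + 1) := by
    have h4 : ∑ j ∈ Finset.range T, G * y j ^ w ≤ ((∑ j ∈ Finset.range T, g (K0 - c - j * M) : ℕ) : ℝ) := by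
      push_cast
      refine Finset.sum_le_sum fun j hj => ?_
      have hj' := Finset.mem_range.1 hj
      have h5 := hjM j hj'
      have h6 := hK1 (K0 - c - j * M) (by omega)
      rwa [(hyj j hj').1] at h6
    have h5 : ((∑ j ∈ Finset.range T, g (K0 - c - j * M) : ℕ) : ℝ) ≤ hP K0 := by exact_mod_cast h2
    exact h4.trans (h5.trans hlt.le)
  have hLM : (M : ℝ) ≤ L := by exact_mod_cast hL2
  -- telescoping of the powers
  have h4 : ∀ t ≤ T, y 0 ^ (w + 1) - y t ^ (w + 1) ≤ ∑ j ∈ Finset.range t, ((w : ℝ) + 1) * M * y j ^ w := by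
    intro t
    induction t with
    | zero => simp
    | succ t ih =>
      intro ht
      have h5 := ih (by omega)
      rw [Finset.sum_range_succ]
      have h6 := (hyj t (by omega)).2
      have h7 : y (t + 1) = y t - M := by
        rw [hy, hy]
        push_cast
        ring
      have h8 := pow_sub (a := y t) (b := y (t + 1)) (by rw [h7]; linarith) (by rw [h7]; linarith) w
      have h9 : y t - y (t + 1) = M := by rw [h7]; ring
      rw [h9] at h8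
      linarith
  have h5 := h4 T le_rfl
  have hyT0 : 0 ≤ y T := by
    have h6 : y T = y (T - 1) - M := by
      rw [hy, hy, Nat.cast_sub hT1]
      push_cast
      ring
    have h7 := (hyj (T - 1) (Nat.sub_lt hT1 Nat.one_pos)).2
    rw [h6]
    linarith
  have hyT1 : y T ≤ L := by
    have h6 : (A : ℝ) < T * M := by exact_mod_cast hTM1
    rw [hy]
    linarith
  have h6 : y T ^ (w + 1) ≤ (L : ℝ) ^ (w + 1) := pow_le_pow_left₀ hyT0 hyT1 _
  have hy0 : y 0 = (K0 : ℝ) - c := by rw [hy]; simp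
  have hc0 : (0 : ℝ) ≤ c := Nat.cast_nonneg c
  have hL0 : (0 : ℝ) ≤ L := Nat.cast_nonneg L
  have h7 := pow_sub (a := (K0 : ℝ)) (b := (K0 : ℝ) - c) (by linarith) (by linarith) w
  rw [sub_sub_cancel] at h7
  have h8 : G * (∑ j ∈ Finset.range T, ((w : ℝ) + 1) * M * y j ^ w) =
      ((w : ℝ) + 1) * M * ∑ j ∈ Finset.range T, G * y j ^ w := by
    rw [Finset.mul_sum, Finset.mul_sum]
    refine Finset.sum_congr rfl fun j _ => ?_
    ring
  have h9 : G * (y 0 ^ (w + 1) - y T ^ (w + 1)) ≤ B * (K0 : ℝ) ^ (w + 1) := by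
    calc G * (y 0 ^ (w + 1) - y T ^ (w + 1))
        ≤ G * (∑ j ∈ Finset.range T, ((w : ℝ) + 1) * M * y j ^ w) := mul_le_mul_of_nonneg_left h5 hG
      _ = ((w : ℝ) + 1) * M * ∑ j ∈ Finset.range T, G * y j ^ w := h8
      _ ≤ ((w : ℝ) + 1) * M * (D * (K0 : ℝ) ^ (w + 1)) := mul_le_mul_of_nonneg_left h3 (by positivity)
      _ = B * (K0 : ℝ) ^ (w + 1) := by rw [hB]; ring
  rw [hy0] at h9
  have hK1' : (1 : ℝ) ≤ K0 := by exact_mod_cast (by omega : 1 ≤ K0)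
  have hKw : (1 : ℝ) ≤ (K0 : ℝ) ^ w := one_le_pow₀ hK1'
  have h10 : (G - B) * (K0 : ℝ) ^ (w + 1) ≤ G * ((w + 1) * c + (L : ℝ) ^ (w + 1)) * (K0 : ℝ) ^ w := by
    have e1 : G * (K0 : ℝ) ^ (w + 1) ≤ G * (((K0 : ℝ) - c) ^ (w + 1) + (w + 1) * c * (K0 : ℝ) ^ w) :=
      mul_le_mul_of_nonneg_left (by linarith) hG
    have e2 : G * y T ^ (w + 1) ≤ G * ((L : ℝ) ^ (w + 1) * (K0 : ℝ) ^ w) := by
      refine mul_le_mul_of_nonneg_left ?_ hG
      refine h6.trans ?_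
      exact le_mul_of_one_le_right (by positivity) hKw
    nlinarith
  have h11 : (G - B) * (K0 : ℝ) ≤ G * ((w + 1) * c + (L : ℝ) ^ (w + 1)) := by
    have h12 : (G - B) * (K0 : ℝ) * (K0 : ℝ) ^ w ≤ G * ((w + 1) * c + (L : ℝ) ^ (w + 1)) * (K0 : ℝ) ^ w := by
      calc (G - B) * (K0 : ℝ) * (K0 : ℝ) ^ w = (G - B) * (K0 : ℝ) ^ (w + 1) := by ring
        _ ≤ _ := h10
    exact le_of_mul_le_mul_right h12 (by positivity)
  have h12 : G * ((w + 1) * c + (L : ℝ) ^ (w + 1)) < (G - B) * (K0 : ℝ) := by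
    rw [div_lt_iff₀ hgap] at hN
    have h13 : (N : ℝ) ≤ K0 := by exact_mod_cast (by omega : N ≤ K0)
    calc _ < (N : ℝ) * (G - B) := hN
      _ ≤ (K0 : ℝ) * (G - B) := mul_le_mul_of_nonneg_right h13 hgap.le
      _ = _ := by ring
  linarith

/-- sharp weighted Bezout inequality -/
theorem BEZ (hMUL : S_MUL) (hSUM : S_SUM) : S_BEZ := by
  intro F _ n wt hwt w M P f s hP hf hfM hM hs hanti
  set J := P ⊔ Ideal.span {f} with hJ
  have hJQ : ∀ Q ∈ s, Q.IsPrime ∧ J ≤ Q := by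
    intro Q hQ
    obtain ⟨h1, h2, h3⟩ := hs Q hQ
    refine ⟨h1, sup_le h2 ?_⟩
    rw [Ideal.span_le]
    simpa using h3
  obtain ⟨c, hc⟩ := hSUM F n wt hwt J s hJQ hanti
  have hmulK := hMUL F n wt hwt M P f hP hf hfM
  have hc0 : (((w : ℝ≥0∞) + 1) * (M : ℝ≥0∞)) ≠ 0 := by
    have : (M : ℝ≥0∞) ≠ 0 := by
      have : M ≠ 0 := by omega
      exact_mod_cast this
    positivity
  have hct : (((w : ℝ≥0∞) + 1) * (M : ℝ≥0∞)) ≠ ⊤ :=
    ENNReal.mul_ne_top (by simp) (ENNReal.natCast_ne_top M)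
  set LP := liminf (fun K : ℕ => (hil wt P K : ℝ≥0∞) / (K : ℝ≥0∞) ^ (w + 1)) atTop with hLP
  suffices key : liminf (fun K : ℕ => ∑ Q ∈ s, (hil wt Q K : ℝ≥0∞) / (K : ℝ≥0∞) ^ w) atTop ≤
      ((w : ℝ≥0∞) + 1) * M * LP by
    unfold Deg
    rw [← Finset.mul_sum]
    calc (w.factorial : ℝ≥0∞) * ∑ Q ∈ s, liminf (fun K : ℕ => (hil wt Q K : ℝ≥0∞) / (K : ℝ≥0∞) ^ w) atTop
        ≤ (w.factorial : ℝ≥0∞) * (((w : ℝ≥0∞) + 1) * M * LP) := by
          gcongr
          exact (sum_liminf_le s fun Q K => (hil wt Q K : ℝ≥0∞) / (K : ℝ≥0∞) ^ w).trans key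
      _ = (M : ℝ≥0∞) * (((w + 1).factorial : ℝ≥0∞) * LP) := by
          rw [Nat.factorial_succ]
          push_cast
          ring
  rw [← ENNReal.div_le_iff' hc0 hct]
  apply le_of_forall_gt_imp_ge_of_dense
  intro D hD
  by_cases hDt : D = ⊤
  · rw [hDt]
    exact le_top
  lift D to ℝ≥0 using hDt
  rw [ENNReal.div_le_iff' hc0 hct]
  have hfr : ∃ᶠ K : ℕ in atTop, (hil wt P K : ℝ) < (D : ℝ) * (K : ℝ) ^ (w + 1) := by
    have h1 : ∃ᶠ K : ℕ in atTop, (hil wt P K : ℝ≥0∞) / (K : ℝ≥0∞) ^ (w + 1) < D :=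
      frequently_lt_of_liminf_lt (by isBoundedDefault) hD
    refine (h1.and_eventually (eventually_gt_atTop 0)).mono ?_
    rintro K ⟨h2, h3⟩
    have hK0 : (K : ℝ≥0∞) ^ (w + 1) ≠ 0 := by
      have : (K : ℝ≥0∞) ≠ 0 := by exact_mod_cast h3.ne'
      positivity
    have hKt : (K : ℝ≥0∞) ^ (w + 1) ≠ ⊤ := ENNReal.pow_ne_top (ENNReal.natCast_ne_top K)
    rw [ENNReal.div_lt_iff (Or.inl hK0) (Or.inl hKt)] at h2
    have h4 : ((hil wt P K : ℝ≥0) : ℝ≥0∞) < ((D * (K : ℝ≥0) ^ (w + 1) : ℝ≥0) : ℝ≥0∞) := by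
      push_cast
      exact h2
    have h5 := ENNReal.coe_lt_coe.1 h4
    exact_mod_cast h5
  by_contra hcon
  push Not at hcon
  obtain ⟨G, hG1, hG2⟩ := ENNReal.lt_iff_exists_nnreal_btwn.1 hcon
  have hev := eventually_lt_of_lt_liminf hG2 (by isBoundedDefault)
  obtain ⟨K1, hK1⟩ := eventually_atTop.1 (hev.and (eventually_gt_atTop 0))
  have hfin := core (w := w) (c := c) (K1 := K1) (D := D) (G := G) (g := fun K => ∑ Q ∈ s, hil wt Q K)
    hM D.2 G.2 hmulK hc hfr (by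
      intro K hK
      obtain ⟨h2, h3⟩ := hK1 K hK
      have hK0 : (K : ℝ≥0∞) ^ w ≠ 0 := by
        have : (K : ℝ≥0∞) ≠ 0 := by exact_mod_cast h3.ne'
        positivity
      have hKt : (K : ℝ≥0∞) ^ w ≠ ⊤ := ENNReal.pow_ne_top (ENNReal.natCast_ne_top K)
      have h4 : ∑ Q ∈ s, (hil wt Q K : ℝ≥0∞) / (K : ℝ≥0∞) ^ w =
          ((∑ Q ∈ s, hil wt Q K : ℕ) : ℝ≥0∞) / (K : ℝ≥0∞) ^ w := by
        push_cast
        simp_rw [div_eq_mul_inv]
        rw [Finset.sum_mul]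
      rw [h4, ENNReal.lt_div_iff_mul_lt (Or.inl hK0) (Or.inl hKt)] at h2
      have h5 : ((G * (K : ℝ≥0) ^ w : ℝ≥0) : ℝ≥0∞) < (((∑ Q ∈ s, hil wt Q K : ℕ) : ℝ≥0) : ℝ≥0∞) := by
        push_cast at h2 ⊢
        exact h2
      have h6 := ENNReal.coe_lt_coe.1 h5
      have h7 : ((G * (K : ℝ≥0) ^ w : ℝ≥0) : ℝ) < (((∑ Q ∈ s, hil wt Q K : ℕ) : ℝ≥0) : ℝ) := by
        exact_mod_cast h6
      have h8 := h7.le
      push_cast at h8 ⊢
      exact h8)
  have h1 : ((G : ℝ≥0) : ℝ≥0∞) ≤ ((w : ℝ≥0∞) + 1) * M * D := by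
    have h2 : (G : ℝ≥0) ≤ ((w : ℝ≥0) + 1) * M * D := by
      have : ((G : ℝ≥0) : ℝ) ≤ ((((w : ℝ≥0) + 1) * M * D : ℝ≥0) : ℝ) := by
        push_cast
        exact hfin
      exact_mod_cast this
    have h3 := ENNReal.coe_le_coe.2 h2
    push_cast at h3
    exact h3
  exact absurd (hG1.trans_le h1) (lt_irrefl _)

end Pool.Agent.N861.BK.BEZ
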